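import Mathlib
import Pool.Agent.H547R3.Osc3

set_option autoImplicit false

/-!
Only finitely many cycles of the 3x+1 map on the integers have oscillation below `3.24`.
-/

namespace Pool.Agent.Results.MP_edb5be_nt.BoundedOscillation

/-- The 3x+1 map on the integers. -/
def T (x : ℤ) : ℤ := if x % 2 = 0 then x / 2 else (3 * x + 1) / 2

/-- `Z` is a cycle of `T`. -/
def IsCycle (Z : Finset ℤ) : Prop :=
  ∃ (x : ℤ) (p : ℕ), 1 ≤ p ∧ T^[p] x = x ∧ Z = (Finset.range p).image fun i => T^[i] x

/-- For every `B < 3 ^ (15 / 14) = 3.2448...` only finitely many cycles of the 3x+1 map on the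
integers (positive or negative) have the property that the absolute value of each of their elements
is at most `B` times the absolute value of each other element. -/
theorem result (B : ℝ) (hB : B < 3 ^ (15 / 14 : ℝ)) :
    {Z : Finset ℤ | IsCycle Z ∧ ∀ x ∈ Z, ∀ y ∈ Z, |(x : ℝ)| ≤ B * |(y : ℝ)|}.Finite :=
  Pool.Agent.H547R3.osc_finite B hB

end Pool.Agent.Results.MP_edb5be_nt.BoundedOscillation
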