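import Mathlib
import Pool.Agent.H547R3.Len

set_option autoImplicit false

/-!
There are `O(X ^ 0.951)` periodic points of the 3x+1 map among the integers of absolute value at
most `X`.
-/

namespace Pool.Agent.Results.MP_edb5be_nt.PeriodicPoints

/-- The 3x+1 map on the integers. -/
def T (x : ℤ) : ℤ := if x % 2 = 0 then x / 2 else (3 * x + 1) / 2

/-- For every `η` larger than the base-two binary entropy `0.94995...` of `log 2 / log 3` there is
`C` such that for every `X ≥ 1` at most `C X ^ η` integers of absolute value at most `X` lie in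
cycles of the 3x+1 map on the integers; `η = 0.951` is admissible. -/
theorem result :
    (∀ η : ℝ, Real.binEntropy (Real.log 2 / Real.log 3) / Real.log 2 < η →
      ∃ C : ℝ, ∀ X : ℝ, 1 ≤ X →
        (Set.ncard {x : ℤ | x ∈ Function.periodicPts T ∧ |(x : ℝ)| ≤ X} : ℝ) ≤ C * X ^ η) ∧
    Real.binEntropy (Real.log 2 / Real.log 3) / Real.log 2 < 0.951 := by
  refine ⟨?_, Pool.Agent.H319R2.beta_lt⟩
  intro η hη
  obtain ⟨C, -, hC⟩ := Pool.Agent.H547R3.periodic_count η hη
  exact ⟨C, hC⟩

end Pool.Agent.Results.MP_edb5be_nt.PeriodicPoints
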