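import Mathlib
import Pool.Agent.H547R3.Cyc

set_option autoImplicit false

/-!
The linear forms `p log 2 - o log 3` attached to the cycles of the 3x+1 map on the integers (`p`
elements, `o` of them odd) are absolutely summable over all cycles other than `{0}`.
-/

namespace Pool.Agent.Results.MP_edb5be_nt.SummableForms

/-- The 3x+1 map on the integers. -/
def T (x : ℤ) : ℤ := if x % 2 = 0 then x / 2 else (3 * x + 1) / 2

/-- `Z` is a cycle of `T`. -/
def IsCycle (Z : Finset ℤ) : Prop :=
  ∃ (x : ℤ) (p : ℕ), 1 ≤ p ∧ T^[p] x = x ∧ Z = (Finset.range p).image fun i => T^[i] x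

/-- The number of odd elements of `Z`. -/
def odds (Z : Finset ℤ) : ℕ := (Z.filter fun x => x % 2 = 1).card

/-- For every `η < 1` larger than the base-two binary entropy `0.94995...` of `log 2 / log 3` there
is `C` such that for every `N ≥ 1` the sum of `|p log 2 - o log 3|` over all the cycles (`p`
elements, `o` of them odd) whose elements all have absolute value at least `N` is at most
`C N ^ (η - 1)`; `η = 0.951` is admissible. -/
theorem result :
    (∀ η : ℝ, Real.binEntropy (Real.log 2 / Real.log 3) / Real.log 2 < η → η < 1 →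
      ∃ C : ℝ, ∀ N : ℝ, 1 ≤ N →
        ∀ F : Finset (Finset ℤ), (∀ Z ∈ F, IsCycle Z ∧ ∀ x ∈ Z, N ≤ |(x : ℝ)|) →
          ∑ Z ∈ F, |(Z.card : ℝ) * Real.log 2 - odds Z * Real.log 3| ≤ C * N ^ (η - 1)) ∧
    Real.binEntropy (Real.log 2 / Real.log 3) / Real.log 2 < 0.951 := by
  refine ⟨?_, Pool.Agent.H319R2.beta_lt⟩
  intro η hη hη1
  obtain ⟨C, -, hC⟩ := Pool.Agent.H547R3.sum_forms η hη hη1
  exact ⟨C, hC⟩

end Pool.Agent.Results.MP_edb5be_nt.SummableForms
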